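import Pool.Agent.H94.G5T.M124

/-!
# G4 A CmB: basic properties of the combinations

`Cmb.pts`: the points `nv v (f i n x')` for `x'` near `x` off `D`.  `Cmb.linv`: `lin` for functions with values in `EN N`.  `Cmb.prm`: the combination of the integrals from a local section is, up to a small error, the
derivative of a local primitive at `v` in the direction of `cX`.
-/

set_option autoImplicit false

open Topology Filter Metric

namespace Pool.Agent.G4.A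

open Pool.Agent.H36.BP (EN fs wd)
open Pool.Agent.H14.PP (IsCone CurveAt Tan)
open Pool.Agent.H62.EF (MN pr)
open Pool.Agent.AD (Vd Chart Charts IsGerm)
open Pool.Agent.TG
open Pool.Agent.G3
open Pool.Agent.G3.A
open Pool.Agent.G3.R (Prm jj_prm nv_near inner_near)
open Pool.Agent.G3.C (Gc nv nd nv_pr)

variable {N k : ℕ} {X : Set (EN N)} {Λ : AddSubgroup (Vd (k + 1))} {u : EN N → Vd (k + 1)} {D B Bad : Set (Vd (k + 1))} {a : Vd (k + 1)}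

variable {ι : Type*} {𝒰 : Ultrafilter ι} {M : ℕ} {y : Fin M → ι → Vd (k + 1)} {y₀ : Vd (k + 1)} {f : Fin M → ι → ℂ → MN N} {g : ℂ → MN N} {c : ι → Fin M → ℂ → ℂ}

theorem Cmb.pts (hC : Cmb X Λ u D a 𝒰 y y₀ f g c) (hX : IsCone X) (hu : TMap X Λ u) (hD : IsClosed D) {x : ℂ} (hx : y₀ + x • a ∉ D) {v : EN N} (hv : ‖v‖ = 1) (hvg : pr v = g x)
    {r : ℝ} (hr : 0 < r) : ∃ t : ℝ, 0 < t ∧ ∀ᶠ n in (𝒰 : Filter ι), ∀ x' ∈ ball x t, ∀ i, nv v (f i n x') ∈ X ∧ nv v (f i n x') ∈ ball v r ∧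
      u (nv v (f i n x')) - (y i n + x' • a) ∈ Λ ∧ inner ℂ v (nv v (f i n x')) = (1 : ℂ) ∧ y i n + x' • a ∈ ball (y₀ + x • a) r ∧ dist (f i n x') (pr v) < r := by
  obtain ⟨ε₁, hε₁, h1⟩ := nv_near (N := N) hr
  obtain ⟨ε₂, hε₂, h2⟩ := inner_near (N := N) (η := 1 / 2) (by norm_num)
  have hgc := hc_cont hX hC.g_mem
  obtain ⟨ε₃, hε₃, hε1, hε2, hε4⟩ : ∃ ε₃ : ℝ, 0 < ε₃ ∧ ε₃ ≤ ε₁ ∧ ε₃ ≤ ε₂ ∧ ε₃ ≤ r := ⟨min r (min ε₁ ε₂), by positivity, (min_le_right _ _).trans (min_le_left _ _),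
    (min_le_right _ _).trans (min_le_right _ _), min_le_left _ _⟩
  have e1 : ∀ᶠ x' in 𝓝 x, dist (g x') (g x) < ε₃ / 2 := Metric.tendsto_nhds.1 (hgc.tendsto x) _ (by linarith)
  have hcont : Continuous fun x' : ℂ => y₀ + x' • a := by fun_prop
  have e2 : ∀ᶠ x' in 𝓝 x, y₀ + x' • a ∉ D := hcont.continuousAt.eventually (hD.isOpen_compl.mem_nhds hx)
  have e3 : ∀ᶠ x' in 𝓝 x, dist (y₀ + x' • a) (y₀ + x • a) < r / 2 := Metric.tendsto_nhds.1 (hcont.tendsto x) _ (by linarith)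
  obtain ⟨t, ht, h3⟩ := Metric.eventually_nhds_iff_ball.1 (e1.and (e2.and e3))
  have hun : ∀ᶠ n in (𝒰 : Filter ι), ∀ i, ∀ x' ∈ closedBall x (t / 2), dist (f i n x') (g x') ≤ ε₃ / 4 :=
    Filter.eventually_all.2 fun i => (hC.lm i).unif4 hgc (isCompact_closedBall _ _) (fun x' hx' => (h3 x' (closedBall_subset_ball (by linarith) hx')).2.1) (by linarith)
  have hyn : ∀ᶠ n in (𝒰 : Filter ι), ∀ i, dist (y i n) y₀ < r / 2 := Filter.eventually_all.2 fun i => Metric.tendsto_nhds.1 (hC.y_lim i) _ (by linarith)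
  have hfn : ∀ᶠ n in (𝒰 : Filter ι), ∀ i, f i n ∈ Hc X Λ u a (y i n) := Filter.eventually_all.2 hC.f_mem
  refine ⟨t / 2, by linarith, ?_⟩
  filter_upwards [hun, hyn, hfn] with n a1 a2 a3 x' hx' i
  have hxt : x' ∈ ball x t := ball_subset_ball (by linarith) hx'
  obtain ⟨b1, b2, b3⟩ := h3 x' hxt
  have hd : dist (f i n x') (pr v) < ε₃ := by
    rw [hvg]
    refine (dist_triangle _ (g x') _).trans_lt ?_
    have := a1 i x' (ball_subset_closedBall hx')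
    linarith
  obtain ⟨p, hp, hpm, hpu⟩ := hc_mem (a3 i) x'
  have hi := (h2 v hv p (ne_zero hX hp) (by rw [hpm]; exact hd.le.trans hε2)).1
  have e : nv v (f i n x') = (inner ℂ v p : ℂ)⁻¹ • p := by rw [← hpm, nv_pr hi]
  refine ⟨?_, ?_, ?_, ?_, ?_, hd.trans_le hε4⟩
  · rw [e]
    exact hX.smul_mem p hp _ (inv_ne_zero hi)
  · rw [mem_ball, dist_eq_norm]
    exact h1 v hv _ (hd.le.trans hε1)
  · rw [e]
    exact smul_mem_lat hu hp hpu (inv_ne_zero hi)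
  · rw [e, inner_smul_right, inv_mul_cancel₀ hi]
  · rw [mem_ball, dist_eq_norm]
    have e5 : y i n + x' • a - (y₀ + x • a) = (y i n - y₀) + (y₀ + x' • a - (y₀ + x • a)) := by abel
    rw [e5]
    refine (norm_add_le _ _).trans_lt ?_
    rw [← dist_eq_norm, ← dist_eq_norm]
    linarith [a2 i]

/-- `lin` for functions with values in `EN N` -/
theorem Cmb.linv (hC : Cmb X Λ u D a 𝒰 y y₀ f g c) {x : ℂ} (hx : y₀ + x • a ∉ D) {v : EN N} (hv : ‖v‖ = 1) (hvg : pr v = g x) {F : EN N × Vd (k + 1) → EN N}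
    (hF : AnalyticAt ℂ F (v, y₀ + x • a)) {ε : ℝ} (hε : 0 < ε) : ∃ t : ℝ, 0 < t ∧ ∀ᶠ n in (𝒰 : Filter ι), ∀ x' ∈ ball x t,
      ‖(∑ i, c n i x' • F (nv v (f i n x'), y i n + x' • a)) - fderiv ℂ F (v, y₀ + x • a) (cX c f v n x', 0)‖ ≤ ε := by
  set ε' : ℝ := ε / (N + 2) with hε'
  have hε'0 : 0 < ε' := by positivity
  have hcoord : ∀ l : Fin (N + 1), ∃ t : ℝ, 0 < t ∧ ∀ᶠ n in (𝒰 : Filter ι), ∀ x' ∈ ball x t,
      ‖((∑ i, c n i x' • F (nv v (f i n x'), y i n + x' • a)) - fderiv ℂ F (v, y₀ + x • a) (cX c f v n x', 0)) l‖ ≤ ε' := by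
    intro l
    have hFl : AnalyticAt ℂ (fun p => (EuclideanSpace.proj l : EN N →L[ℂ] ℂ) (F p)) (v, y₀ + x • a) := (ContinuousLinearMap.analyticAt _ _).fun_comp hF
    obtain ⟨t, ht, h1⟩ := hC.lin x hx v hv hvg _ hFl ε' hε'0
    refine ⟨t, ht, ?_⟩
    filter_upwards [h1] with n h2 x' hx'
    have h3 := h2 x' hx'
    have h4 : fderiv ℂ (fun p => (EuclideanSpace.proj l : EN N →L[ℂ] ℂ) (F p)) (v, y₀ + x • a) = (EuclideanSpace.proj l : EN N →L[ℂ] ℂ).comp (fderiv ℂ F (v, y₀ + x • a)) := by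
      have h5 := (EuclideanSpace.proj l : EN N →L[ℂ] ℂ).hasFDerivAt.comp (v, y₀ + x • a) hF.differentiableAt.hasFDerivAt
      exact h5.fderiv
    rw [h4] at h3
    refine le_of_eq_of_le ?_ h3
    congr 1
    simp [PiLp.sub_apply]
  choose t ht h1 using hcoord
  obtain ⟨t₀, ht₀, htl⟩ : ∃ t₀ : ℝ, 0 < t₀ ∧ ∀ l, t₀ ≤ t l := by
    refine ⟨Finset.univ.inf' Finset.univ_nonempty t, ?_, fun l => Finset.inf'_le _ (Finset.mem_univ l)⟩
    rw [Finset.lt_inf'_iff]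
    exact fun l _ => ht l
  refine ⟨t₀, ht₀, ?_⟩
  filter_upwards [Filter.eventually_all.2 h1] with n h2 x' hx'
  set V := (∑ i, c n i x' • F (nv v (f i n x'), y i n + x' • a)) - fderiv ℂ F (v, y₀ + x • a) (cX c f v n x', 0) with hV
  have h3 : ∀ l, ‖V l‖ ≤ ε' := fun l => h2 l x' (ball_subset_ball (htl l) hx')
  have h4 : ‖V‖ ^ 2 ≤ ε ^ 2 := by
    rw [EuclideanSpace.norm_sq_eq]
    calc ∑ l, ‖V l‖ ^ 2 ≤ ∑ _l : Fin (N + 1), ε' ^ 2 := Finset.sum_le_sum fun l _ => pow_le_pow_left₀ (norm_nonneg _) (h3 l) 2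
      _ = (N + 1) * ε' ^ 2 := by simp
      _ ≤ ε ^ 2 := by
        have h5 : ε = (N + 2) * ε' := by
          rw [hε']
          field_simp
        have hN : (0 : ℝ) ≤ N := Nat.cast_nonneg N
        rw [h5, mul_pow]
        refine mul_le_mul_of_nonneg_right ?_ (sq_nonneg _)
        nlinarith
  exact (pow_le_pow_iff_left₀ (norm_nonneg _) hε.le two_ne_zero).1 h4

/-- functions on `EN N` which are differentiable near a point are analytic there -/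
theorem an_en {Ψ : EN N → ℂ} {v : EN N} (h : ∀ᶠ p in 𝓝 v, DifferentiableAt ℂ Ψ p) : AnalyticAt ℂ Ψ v := by
  set e : EN N ≃L[ℂ] (Fin (N + 1) → ℂ) := EuclideanSpace.equiv (Fin (N + 1)) ℂ with he
  have h0 : ∀ᶠ q in 𝓝 (e v), DifferentiableAt ℂ Ψ (e.symm q) := by
    have h1 : Tendsto e.symm (𝓝 (e v)) (𝓝 v) := by
      have := e.symm.continuous.tendsto (e v)
      rwa [e.symm_apply_apply] at this
    exact h1.eventually h
  have h1 : ∀ᶠ q in 𝓝 (e v), ‖Ψ (e.symm q)‖ < ‖Ψ v‖ + 1 := by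
    have h2 : ContinuousAt (fun q => Ψ (e.symm q)) (e v) := by
      refine ContinuousAt.comp (f := e.symm) ?_ e.symm.continuous.continuousAt
      rw [e.symm_apply_apply]
      exact h.self_of_nhds.continuousAt
    have h3 : ‖Ψ (e.symm (e v))‖ < ‖Ψ v‖ + 1 := by
      rw [e.symm_apply_apply]
      exact lt_add_one _
    exact h2.norm.eventually_lt_const h3
  obtain ⟨r, hr, hb⟩ := Metric.eventually_nhds_iff_ball.1 (h0.and h1)
  have h2 : AnalyticAt ℂ (fun q => Ψ (e.symm q)) (e v) := by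
    refine Pool.Agent.TN.osgood_pi hr (M := ‖Ψ v‖ + 1) (fun y hy => (hb y hy).2.le) fun y hy l => ?_
    have h3 : DifferentiableAt ℂ (fun t : ℂ => e.symm (y + t • (Pi.single l 1 : Fin (N + 1) → ℂ))) 0 :=
      DifferentiableAt.comp (0 : ℂ) (f := fun t : ℂ => y + t • (Pi.single l 1 : Fin (N + 1) → ℂ)) e.symm.differentiableAt (by fun_prop)
    refine DifferentiableAt.comp (0 : ℂ) (f := fun t : ℂ => e.symm (y + t • (Pi.single l 1 : Fin (N + 1) → ℂ))) ?_ h3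
    rw [zero_smul, add_zero]
    exact (hb y hy).1
  have h3 : AnalyticAt ℂ (fun p => Ψ (e.symm (e p))) v := h2.fun_comp ((e : EN N →L[ℂ] (Fin (N + 1) → ℂ)).analyticAt v)
  simpa using h3

theorem prm_an {α : VForm X Λ u} {y₁ : Vd (k + 1)} {v : EN N} {R : ℝ} {Ψ : EN N → ℂ} (hΨ : Prm α y₁ v R Ψ) : AnalyticAt ℂ Ψ v := by
  refine an_en ?_
  filter_upwards [isOpen_ball.mem_nhds (mem_ball_self hΨ.pos)] with p hp
  exact (hΨ.diff p hp).differentiableAt (isOpen_ball.mem_nhds hp)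

/-- the combination of the values of a function of `x`, `fderiv` form -/
theorem Cmb.lin₁ (hC : Cmb X Λ u D a 𝒰 y y₀ f g c) {x : ℂ} (hx : y₀ + x • a ∉ D) {v : EN N} (hv : ‖v‖ = 1) (hvg : pr v = g x) {Ψ : EN N → ℂ}
    (hF : AnalyticAt ℂ Ψ v) {ε : ℝ} (hε : 0 < ε) : ∃ t : ℝ, 0 < t ∧ ∀ᶠ n in (𝒰 : Filter ι), ∀ x' ∈ ball x t,
      ‖(∑ i, c n i x' * Ψ (nv v (f i n x'))) - fderiv ℂ Ψ v (cX c f v n x')‖ ≤ ε := by
  have h1 : AnalyticAt ℂ (fun p : EN N × Vd (k + 1) => Ψ p.1) (v, y₀ + x • a) := AnalyticAt.fun_comp (g := Ψ) (f := fun p : EN N × Vd (k + 1) => p.1) hF analyticAt_fst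
  have h2 : ∀ w : EN N, fderiv ℂ (fun p : EN N × Vd (k + 1) => Ψ p.1) (v, y₀ + x • a) (w, 0) = fderiv ℂ Ψ v w := by
    intro w
    have h3 : HasFDerivAt (fun p : EN N × Vd (k + 1) => Ψ p.1) ((fderiv ℂ Ψ v).comp (ContinuousLinearMap.fst ℂ (EN N) (Vd (k + 1)))) (v, y₀ + x • a) :=
      HasFDerivAt.comp (g := Ψ) (f := fun p : EN N × Vd (k + 1) => p.1) (v, y₀ + x • a) hF.differentiableAt.hasFDerivAt hasFDerivAt_fst
    rw [h3.fderiv]
    rfl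
  obtain ⟨t, ht, h3⟩ := hC.lin x hx v hv hvg _ h1 ε hε
  refine ⟨t, ht, ?_⟩
  filter_upwards [h3] with n hn x' hx'
  have h4 := hn x' hx'
  rwa [h2] at h4

/-- functions of `y` are killed -/
theorem Cmb.kil (hC : Cmb X Λ u D a 𝒰 y y₀ f g c) {x : ℂ} (hx : y₀ + x • a ∉ D) {v : EN N} (hv : ‖v‖ = 1) (hvg : pr v = g x) {h : Vd (k + 1) → ℂ}
    (hF : AnalyticAt ℂ h (y₀ + x • a)) {ε : ℝ} (hε : 0 < ε) : ∃ t : ℝ, 0 < t ∧ ∀ᶠ n in (𝒰 : Filter ι), ∀ x' ∈ ball x t,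
      ‖∑ i, c n i x' * h (y i n + x' • a)‖ ≤ ε := by
  have h1 : AnalyticAt ℂ (fun p : EN N × Vd (k + 1) => h p.2) (v, y₀ + x • a) := AnalyticAt.fun_comp (g := h) (f := fun p : EN N × Vd (k + 1) => p.2) hF analyticAt_snd
  have h2 : ∀ w : EN N, fderiv ℂ (fun p : EN N × Vd (k + 1) => h p.2) (v, y₀ + x • a) (w, 0) = 0 := by
    intro w
    have h3 : HasFDerivAt (fun p : EN N × Vd (k + 1) => h p.2) ((fderiv ℂ h (y₀ + x • a)).comp (ContinuousLinearMap.snd ℂ (EN N) (Vd (k + 1)))) (v, y₀ + x • a) :=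
      HasFDerivAt.comp (g := h) (f := fun p : EN N × Vd (k + 1) => p.2) (v, y₀ + x • a) hF.differentiableAt.hasFDerivAt hasFDerivAt_snd
    rw [h3.fderiv]
    show (fderiv ℂ h (y₀ + x • a)) 0 = 0
    exact map_zero _
  obtain ⟨t, ht, h3⟩ := hC.lin x hx v hv hvg _ h1 ε hε
  refine ⟨t, ht, ?_⟩
  filter_upwards [h3] with n hn x' hx'
  have h4 := hn x' hx'
  rwa [h2, sub_zero] at h4

/-- the combination of the integrals from a local section -/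
theorem Cmb.prm (hC : Cmb X Λ u D a 𝒰 y y₀ f g c) (G : Geo X Λ u D B) {α : VForm X Λ u} {x : ℂ} (hx : y₀ + x • a ∉ D) {S : Vd (k + 1) → EN N}
    (hS : AnalyticAt ℂ S (y₀ + x • a)) (hSX : ∀ᶠ y in 𝓝 (y₀ + x • a), S y ∈ X ∧ u (S y) - y ∈ Λ) (hSg : pr (S (y₀ + x • a)) = g x)
    {Ψ : EN N → ℂ} {v : EN N} {R : ℝ} (hΨ : Prm α (y₀ + x • a) v R Ψ) (hv : pr v = g x) {ε : ℝ} (hε : 0 < ε) :
    ∃ t : ℝ, 0 < t ∧ ∀ᶠ n in (𝒰 : Filter ι), ∀ x' ∈ ball x t,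
      ‖(∑ i, c n i x' * JJ α (y i n + x' • a) (pr (S (y i n + x' • a))) (f i n x')) - fderiv ℂ Ψ v (cX c f v n x')‖ ≤ ε := by
  obtain ⟨han, ε₀, hε₀, hJ⟩ := jj_prm G hΨ hS hSX (hSg.trans hv.symm)
  have hv1 := hΨ.unit
  obtain ⟨t₁, ht₁, h1⟩ := hC.lin₁ hx hv1 hv (prm_an hΨ) (half_pos hε)
  obtain ⟨t₂, ht₂, h2⟩ := hC.kil hx hv1 hv han (half_pos hε)
  obtain ⟨t₃, ht₃, h3⟩ := hC.pts G.cone G.tor G.D_closed hx hv1 hv hε₀
  have hfn : ∀ᶠ n in (𝒰 : Filter ι), ∀ i, f i n ∈ Hc X Λ u a (y i n) := Filter.eventually_all.2 hC.f_mem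
  refine ⟨min t₁ (min t₂ t₃), by positivity, ?_⟩
  filter_upwards [h1, h2, h3, hfn] with n a1 a2 a3 a4 x' hx'
  have b1 := a1 x' (ball_subset_ball (min_le_left _ _) hx')
  have b2 := a2 x' (ball_subset_ball ((min_le_right _ _).trans (min_le_left _ _)) hx')
  have b3 := a3 x' (ball_subset_ball ((min_le_right _ _).trans (min_le_right _ _)) hx')
  have h7 : ∀ i, JJ α (y i n + x' • a) (pr (S (y i n + x' • a))) (f i n x') = Ψ (nv v (f i n x')) - Ψ (nv v (pr (S (y i n + x' • a)))) := fun i =>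
    (hJ _ (b3 i).2.2.2.2.1 _ (hc_mem (a4 i) x') (b3 i).2.2.2.2.2).2
  have h8 : (∑ i, c n i x' * JJ α (y i n + x' • a) (pr (S (y i n + x' • a))) (f i n x')) - fderiv ℂ Ψ v (cX c f v n x') =
      ((∑ i, c n i x' * Ψ (nv v (f i n x'))) - fderiv ℂ Ψ v (cX c f v n x')) - ∑ i, c n i x' * Ψ (nv v (pr (S (y i n + x' • a)))) := by
    rw [sub_right_comm, ← Finset.sum_sub_distrib]
    congr 1
    refine Finset.sum_congr rfl fun i _ => ?_
    rw [h7 i]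
    ring
  rw [h8]
  refine (norm_sub_le _ _).trans ?_
  linarith

end Pool.Agent.G4.A
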